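import Pool.Agent.Helper64.Rig.Basics
import Pool.Agent.Helper73.Rig.Rank

/-!
# PACKET Dim: the dimensions of the spaces of forms on the Fermat quintic
-/

namespace Pool.Agent.Helper52.Rig

open MvPolynomial Module Pool.Agent.Helper64.Rig

theorem finrank_forms (q : ℕ) :
    finrank ℂ (homogeneousSubmodule (Fin 3) ℂ q) = (q + 2).choose q := by
  rw [(Pool.Agent.Helper73.Rig.coords (σ := Fin 3) (A := ℂ) q).finrank_eq,
    Module.finrank_fintype_fun_eq_card]
  have h := Finset.card_finsuppAntidiag_nat_eq_choose (s := (Finset.univ : Finset (Fin 3))) q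
  rw [Finset.card_univ, Fintype.card_fin] at h
  have h2 : 3 + q - 1 = q + 2 := by omega
  rw [h2] at h
  rw [← h, ← Fintype.card_coe]
  refine Fintype.card_congr (Equiv.subtypeEquivRight fun d => ?_)
  rw [Finset.mem_finsuppAntidiag]
  simp only [Finset.subset_univ, and_true]
  rw [Finsupp.degree_eq_sum]

instance (q : ℕ) : Module.Finite ℂ (homogeneousSubmodule (Fin 3) ℂ q) :=
  Module.Finite.iff_fg.2 (homogeneousSubmodule_fg (Fin 3) ℂ q)

theorem isHomogeneous_FF : FF.IsHomogeneous 5 := by
  unfold FF
  refine IsHomogeneous.sum _ _ _ fun i _ => ?_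
  simpa using (isHomogeneous_X ℂ i).pow 5

theorem FF_ne : FF ≠ 0 := by
  intro h
  have := congrArg (eval ![1, 0, 0]) h
  simp [FF, Fin.sum_univ_three] at this

/-- Multiplication by the equation. -/
noncomputable def mulFF (r : ℕ) :
    homogeneousSubmodule (Fin 3) ℂ r →ₗ[ℂ] homogeneousSubmodule (Fin 3) ℂ (r + 5) where
  toFun G := ⟨FF * G.1, by
    have := isHomogeneous_FF.mul ((mem_homogeneousSubmodule _ _).1 G.2)
    rw [add_comm] at this
    exact this⟩
  map_add' G H := Subtype.ext (mul_add _ _ _)
  map_smul' c G := Subtype.ext (mul_smul_comm _ _ _)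

theorem mulFF_injective (r : ℕ) : Function.Injective (mulFF r) := by
  intro G H h
  have := congrArg Subtype.val h
  exact Subtype.ext (mul_left_cancel₀ FF_ne this)

theorem hc_mul_FF (r : ℕ) (H : MvPolynomial (Fin 3) ℂ) :
    homogeneousComponent (r + 5) (FF * H) = FF * homogeneousComponent r H := by
  classical
  conv_lhs => rw [← sum_homogeneousComponent H]
  rw [Finset.mul_sum, map_sum]
  have key : ∀ i, homogeneousComponent (r + 5) (FF * homogeneousComponent i H) =
      if i = r then FF * homogeneousComponent i H else 0 := by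
    intro i
    have h1 : (FF * homogeneousComponent i H).IsHomogeneous (i + 5) := by
      have := isHomogeneous_FF.mul (homogeneousComponent_isHomogeneous i H)
      rwa [add_comm] at this
    rw [homogeneousComponent_of_mem h1]
    by_cases hi : i = r
    · rw [if_pos hi, if_pos (by omega)]
    · rw [if_neg hi, if_neg (by omega)]
  simp only [key]
  rw [Finset.sum_ite_eq']
  split_ifs with h
  · rfl
  · rw [Finset.mem_range, not_lt] at h
    rw [homogeneousComponent_eq_zero _ _ (by omega), mul_zero]

section
variable {K : Type} [Field K] [Algebra ℂ K] {ζ : ℂ} {x : Jx → K}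

/-- The evaluation of forms. -/
noncomputable def ev (x : Jx → K) (q : ℕ) : homogeneousSubmodule (Fin 3) ℂ q →ₗ[ℂ] K :=
  (aeval (pr x) : MvPolynomial (Fin 3) ℂ →ₐ[ℂ] K).toLinearMap.domRestrict _

theorem range_ev (q : ℕ) : LinearMap.range (ev x q) = AA x q := by
  rw [ev, LinearMap.range_domRestrict]
  rfl

theorem finrank_small (hKer : StmtKer) (h : Cov ζ x) {q : ℕ} (hq : q < 5) :
    finrank ℂ (AA x q) = (q + 2).choose q := by
  rw [← range_ev, ← finrank_forms]
  refine LinearMap.finrank_range_of_inj ?_
  rw [← LinearMap.ker_eq_bot, LinearMap.ker_eq_bot']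
  intro G hG
  exact Subtype.ext ((hKer K ζ x h).2 q G.1 hq G.2 hG)

theorem finrank_large (hKer : StmtKer) (h : Cov ζ x) (r : ℕ) :
    finrank ℂ (AA x (r + 5)) + (r + 2).choose r = (r + 7).choose (r + 5) := by
  have h1 := LinearMap.finrank_range_add_finrank_ker (ev x (r + 5))
  rw [range_ev, finrank_forms] at h1
  have h2 : LinearMap.ker (ev x (r + 5)) = LinearMap.range (mulFF r) := by
    ext G
    constructor
    · intro hG
      obtain ⟨H, hH⟩ := (hKer K ζ x h).1 G.1 hG
      refine ⟨⟨homogeneousComponent r H, homogeneousComponent_isHomogeneous r H⟩, Subtype.ext ?_⟩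
      change FF * homogeneousComponent r H = G.1
      rw [← hc_mul_FF, ← hH]
      exact homogeneousComponent_eq_self G.2
    · rintro ⟨H, rfl⟩
      change aeval (pr x) (FF * H.1) = 0
      rw [map_mul, aeval_FF h, zero_mul]
  rw [h2, LinearMap.finrank_range_of_inj (mulFF_injective r), finrank_forms] at h1
  exact h1

end

theorem pf_Dim (hKer : StmtKer) : StmtDim := by
  intro K _ _ ζ x h
  refine ⟨fun q => ?_, fun q hq => ?_, ?_⟩
  · rw [← range_ev]
    infer_instance
  · obtain h5 | h5 := lt_or_ge q 5
    · rw [finrank_small hKer h h5]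
      have : q = 3 ∨ q = 4 := by omega
      rcases this with rfl | rfl <;> rfl
    · obtain ⟨r, rfl⟩ : ∃ r, q = r + 5 := ⟨q - 5, by omega⟩
      have := finrank_large hKer h r
      have c1 : (r + 2).choose r * 2 = (r + 2) * (r + 1) := by
        have e : (r + 2).choose r = (r + 2).choose 2 := Nat.choose_symm_of_eq_add (by ring)
        rw [e, Nat.choose_two_right]
        exact Nat.div_mul_cancel (Nat.even_mul_pred_self (r + 2)).two_dvd
      have c2 : (r + 7).choose (r + 5) * 2 = (r + 7) * (r + 6) := by
        have e : (r + 7).choose (r + 5) = (r + 7).choose 2 := Nat.choose_symm_of_eq_add (by ring)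
        rw [e, Nat.choose_two_right]
        exact Nat.div_mul_cancel (Nat.even_mul_pred_self (r + 7)).two_dvd
      nlinarith
  · rw [finrank_small hKer h (by norm_num)]
    rfl

end Pool.Agent.Helper52.Rig
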