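import Pool.Agent.Helper64.Rig.Basics

/-!
# PACKET LinAC: linear relations between the hats, and the diagonal derivations
-/

namespace Pool.Agent.Helper52.Rig

open MvPolynomial Module Pool.Agent.Helper64.Rig

/-- The linear forms as polynomials. -/
noncomputable def elp (ζ : ℂ) (j : Jx) : MvPolynomial (Fin 3) ℂ :=
  X (j.1 + 1) + C (ζ ^ (j.2 : ℕ)) * X (j.1 + 2)

theorem isHomogeneous_elp (ζ : ℂ) (j : Jx) : (elp ζ j).IsHomogeneous 1 := by
  unfold elp
  refine (isHomogeneous_X _ _).add ?_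
  exact isHomogeneous_C_mul_X _ _

theorem eval_elp (ζ : ℂ) (j : Jx) (v : Fin 3 → ℂ) :
    eval v (elp ζ j) = v (j.1 + 1) + ζ ^ (j.2 : ℕ) * v (j.1 + 2) := by
  simp [elp]

theorem zpow_inj {ζ : ℂ} (hζ : IsPrimitiveRoot ζ 5) {k k' : Fin 5} (h : ζ ^ (k : ℕ) = ζ ^ (k' : ℕ)) :
    k = k' := Fin.ext (hζ.pow_inj k.2 k'.2 h)

/-- The quartic form with coefficients `c`. -/
noncomputable def qf (ζ : ℂ) (c : Fin 5 → ℂ) (a b : ℂ) : ℂ :=
  ∑ k, c k * ∏ k' ∈ Finset.univ.erase k, (a + ζ ^ (k' : ℕ) * b)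

theorem qf_zero (ζ : ℂ) (c : Fin 5 → ℂ) : qf ζ c 0 0 = 0 := by
  unfold qf
  refine Finset.sum_eq_zero fun k _ => ?_
  simp only [mul_zero, add_zero, Finset.prod_const]
  rw [Finset.card_erase_of_mem (Finset.mem_univ _)]
  simp

theorem qf_eq {ζ : ℂ} (c : Fin 5 → ℂ) (k : Fin 5) :
    qf ζ c (-ζ ^ (k : ℕ)) 1 =
      c k * ∏ k' ∈ Finset.univ.erase k, (ζ ^ (k' : ℕ) - ζ ^ (k : ℕ)) := by
  unfold qf
  rw [Finset.sum_eq_single k]
  · congr 1
    refine Finset.prod_congr rfl fun k' _ => ?_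
    ring
  · intro k'' _ hk
    rw [Finset.prod_eq_zero (i := k) (Finset.mem_erase.2 ⟨Ne.symm hk, Finset.mem_univ _⟩) (by ring),
      mul_zero]
  · intro h
    exact absurd (Finset.mem_univ _) h

section
variable {K : Type} [Field K] [Algebra ℂ K] {ζ : ℂ} {x : Jx → K}

theorem aeval_elp (j : Jx) : aeval (pr x) (elp ζ j) = el ζ x j := by
  simp [elp, el]

theorem qf_rel (hKer : StmtKer) (h : Cov ζ x) (c : Jx → ℂ)
    (hc : ∀ i : Fin 3, ∑ k, hat x (i, k) * algebraMap ℂ K (c (i, k)) =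
      ∑ k, hat x (0, k) * algebraMap ℂ K (c (0, k))) (i : Fin 3) (v : Fin 3 → ℂ) :
    qf ζ (fun k => c (i, k)) (v (i + 1)) (v (i + 2)) = qf ζ (fun k => c (0, k)) (v 1) (v 2) := by
  set P : Fin 3 → MvPolynomial (Fin 3) ℂ := fun i =>
    ∑ k, C (c (i, k)) * ∏ k' ∈ Finset.univ.erase k, elp ζ (i, k') with hP
  have hhom : ∀ i, (P i).IsHomogeneous 4 := by
    intro i
    refine IsHomogeneous.sum _ _ _ fun k _ => IsHomogeneous.C_mul ?_ _
    have := IsHomogeneous.prod (Finset.univ.erase k) (fun k' => elp ζ (i, k')) (fun _ => 1)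
      fun k' _ => isHomogeneous_elp ζ (i, k')
    rw [Finset.sum_const, Finset.card_erase_of_mem (Finset.mem_univ _)] at this
    exact this
  have hae : ∀ i, aeval (pr x) (P i) = ∑ k, hat x (i, k) * algebraMap ℂ K (c (i, k)) := by
    intro i
    rw [hP]
    simp only [map_sum, map_mul, map_prod, aeval_elp]
    refine Finset.sum_congr rfl fun k _ => ?_
    rw [hat_eq h, mul_comm]
    congr 1
    exact aeval_C _ _
  have hev : ∀ i v, eval v (P i) = qf ζ (fun k => c (i, k)) (v (i + 1)) (v (i + 2)) := by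
    intro i v
    rw [hP]
    simp only [map_sum, map_mul, map_prod, eval_elp, eval_C, qf]
  have h0 : P i - P 0 = 0 := by
    refine (hKer K ζ x h).2 4 _ (by norm_num) ((hhom i).sub (hhom 0)) ?_
    rw [map_sub, hae, hae, hc i, sub_self]
  rw [sub_eq_zero] at h0
  rw [← hev, h0, hev]
  rfl

end

theorem pf_LinA (hKer : StmtKer) : StmtLinA := by
  intro K _ _ ζ x h c hc
  have hr := qf_rel hKer h c hc
  have hz : ∀ a b, qf ζ (fun k => c (0, k)) a b = 0 := by
    intro a b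
    have h1 := hr 1 ![0, a, b]
    have h2 := hr 1 ![0, 0, b]
    have h3 := hr 2 ![0, 0, b]
    have e1 : (1 : Fin 3) + 1 = 2 := rfl
    have e2 : (1 : Fin 3) + 2 = 0 := rfl
    have e3 : (2 : Fin 3) + 1 = 0 := rfl
    have e4 : (2 : Fin 3) + 2 = 1 := rfl
    simp only [e1, e2, e3, e4, Matrix.cons_val_zero, Matrix.cons_val_one, Matrix.cons_val] at h1 h2 h3
    rw [← h1, h2, ← h3, qf_zero]
  have hz' : ∀ i a b, qf ζ (fun k => c (i, k)) a b = 0 := by
    intro i a b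
    have h1 := hr i (fun l => if l = i + 1 then a else b)
    rw [hz] at h1
    simp only [if_true] at h1
    have e : i + 2 ≠ i + 1 := by
      fin_cases i <;> decide
    rw [if_neg e] at h1
    exact h1
  funext j
  obtain ⟨i, k⟩ := j
  have := hz' i (-ζ ^ (k : ℕ)) 1
  rw [qf_eq, mul_eq_zero] at this
  rcases this with h1 | h1
  · exact h1
  · rw [Finset.prod_eq_zero_iff] at h1
    obtain ⟨k', hk', h2⟩ := h1
    rw [sub_eq_zero] at h2
    exact absurd (zpow_inj h.prim h2) (Finset.mem_erase.1 hk').1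

/-! ## The diagonal derivations -/

/-- The derivation of a matrix, bundled. -/
noncomputable def derD (A : Matrix Jx Jx ℂ) :
    Derivation ℂ (MvPolynomial Jx ℂ) (MvPolynomial Jx ℂ) :=
  ∑ i, (∑ j, C (A i j) * X j : MvPolynomial Jx ℂ) • pderiv i

theorem coe_sum_der {ι : Type} (t : Finset ι)
    (f : ι → Derivation ℂ (MvPolynomial Jx ℂ) (MvPolynomial Jx ℂ)) (G : MvPolynomial Jx ℂ) :
    (∑ i ∈ t, f i) G = ∑ i ∈ t, f i G := by
  classical
  induction t using Finset.induction_on with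
  | empty => simp
  | insert a t ha ih => rw [Finset.sum_insert ha, Finset.sum_insert ha, Derivation.add_apply, ih]

theorem derD_apply (A : Matrix Jx Jx ℂ) (G : MvPolynomial Jx ℂ) : derD A G = der A G := by
  unfold derD der
  rw [coe_sum_der]
  refine Finset.sum_congr rfl fun i _ => ?_
  rw [Derivation.smul_apply, smul_eq_mul, Finset.sum_mul]

theorem der_diagonal (s : Jx → ℂ) (G : MvPolynomial Jx ℂ) :
    der (Matrix.diagonal s) G = ∑ i, C (s i) * X i * pderiv i G := by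
  unfold der
  refine Finset.sum_congr rfl fun i _ => ?_
  rw [Finset.sum_eq_single i]
  · rw [Matrix.diagonal_apply_eq]
  · intro j _ hj
    rw [Matrix.diagonal_apply_ne _ (Ne.symm hj), map_zero, zero_mul, zero_mul]
  · intro h
    exact absurd (Finset.mem_univ _) h

theorem der_single (j₀ j₁ : Jx) (c : ℂ) (G : MvPolynomial Jx ℂ) :
    der (Matrix.single j₀ j₁ c) G = C c * X j₁ * pderiv j₀ G := by
  unfold der
  rw [Finset.sum_eq_single j₀]
  · rw [Finset.sum_eq_single j₁]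
    · rw [Matrix.single_apply_same]
    · intro j _ hj
      rw [Matrix.single_apply_of_ne _ _ _ _ _ (fun h => hj h.2.symm), map_zero, zero_mul, zero_mul]
    · intro h
      exact absurd (Finset.mem_univ _) h
  · intro i _ hi
    refine Finset.sum_eq_zero fun j _ => ?_
    rw [Matrix.single_apply_of_ne _ _ _ _ _ (fun h => hi h.1.symm), map_zero, zero_mul, zero_mul]
  · intro h
    exact absurd (Finset.mem_univ _) h

theorem der_diagonal_X (s : Jx → ℂ) (j : Jx) :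
    derD (Matrix.diagonal s) (X j) = C (s j) * X j := by
  classical
  rw [derD_apply, der_diagonal]
  rw [Finset.sum_eq_single j]
  · rw [pderiv_X_self, mul_one]
  · intro i _ hi
    rw [pderiv_X_of_ne (Ne.symm hi), mul_zero]
  · intro h
    exact absurd (Finset.mem_univ _) h

theorem derD_prod (D : Derivation ℂ (MvPolynomial Jx ℂ) (MvPolynomial Jx ℂ)) (s : Jx → ℂ)
    (hD : ∀ j, D (X j) = C (s j) * X j) (t : Finset Jx) :
    D (∏ j ∈ t, X j) = C (∑ j ∈ t, s j) * ∏ j ∈ t, X j := by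
  classical
  induction t using Finset.induction_on with
  | empty => simp
  | insert a t ha ih =>
    rw [Finset.prod_insert ha, Finset.sum_insert ha, Derivation.leibniz, ih, hD]
    simp only [smul_eq_mul, map_add]
    ring

theorem derD_pr (s : Jx → ℂ) (i : Fin 3) :
    derD (Matrix.diagonal s) (pr X i) = C (∑ k, s (i, k)) * pr X i := by
  classical
  have := derD_prod (derD (Matrix.diagonal s)) s (der_diagonal_X s)
    (Finset.univ.map ⟨fun k : Fin 5 => (i, k), fun a b h => (Prod.mk.inj h).2⟩)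
  rw [Finset.prod_map, Finset.sum_map] at this
  exact this

theorem der_EE (ζ : ℂ) (s : Jx → ℂ) (j : Jx) :
    der (Matrix.diagonal s) (EE ζ j) = C (5 * s j) * X j ^ 5 +
      (C (∑ k, s (j.1 + 1, k)) * pr X (j.1 + 1) +
        C (ζ ^ (j.2 : ℕ) * ∑ k, s (j.1 + 2, k)) * pr X (j.1 + 2)) := by
  rw [← derD_apply]
  unfold EE el
  rw [map_add, map_add, derD_pr, Derivation.leibniz, derD_pr, Derivation.leibniz_pow,
    der_diagonal_X]
  have h1 : derD (Matrix.diagonal s) (algebraMap ℂ (MvPolynomial Jx ℂ) (ζ ^ (j.2 : ℕ))) = 0 :=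
    Derivation.map_algebraMap _ _
  rw [h1]
  simp only [smul_eq_mul, mul_zero, add_zero, nsmul_eq_mul, map_mul, algebraMap_eq]
  have h5 : (C (5 : ℂ) : MvPolynomial Jx ℂ) = 5 := map_ofNat C 5
  rw [h5]
  push_cast
  ring

section
variable {K : Type} [Field K] [Algebra ℂ K] {ζ : ℂ} {x : Jx → K}

theorem aeval_pr_X (i : Fin 3) : aeval x (pr (X : Jx → MvPolynomial Jx ℂ) i) = pr x i := by
  simp [pr]

theorem aeval_EE (h : Cov ζ x) (j : Jx) : aeval x (EE ζ j) = 0 := by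
  have : aeval x (EE ζ j) = x j ^ 5 + el ζ x j := by
    simp [EE, el, aeval_pr_X, algebraMap_eq]
  rw [this, h.rel]

/-- The linear form of the diagonal derivation. -/
noncomputable def lam (ζ : ℂ) (s : Jx → ℂ) (j : Jx) : MvPolynomial (Fin 3) ℂ :=
  C (∑ k, s (j.1 + 1, k) - 5 * s j) * X (j.1 + 1) +
    C (ζ ^ (j.2 : ℕ) * (∑ k, s (j.1 + 2, k) - 5 * s j)) * X (j.1 + 2)

theorem aeval_lam (h : Cov ζ x) (s : Jx → ℂ) (j : Jx) :
    aeval x (der (Matrix.diagonal s) (EE ζ j)) = aeval (pr x) (lam ζ s j) := by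
  rw [der_EE]
  unfold lam
  simp only [map_add, map_mul, map_sub, map_pow, aeval_X, aeval_C, aeval_pr_X]
  rw [pow_five h]
  unfold el
  simp only [map_pow]
  ring

/-- The inflection point. -/
noncomputable def Qp (ζ : ℂ) (j₀ : Jx) : Fin 3 → ℂ := fun i =>
  if i = j₀.1 then 0 else if i = j₀.1 + 1 then -ζ ^ (j₀.2 : ℕ) else 1

theorem Qp0 (ζ : ℂ) (j₀ : Jx) : Qp ζ j₀ j₀.1 = 0 := if_pos rfl

theorem Qp1 (ζ : ℂ) (j₀ : Jx) : Qp ζ j₀ (j₀.1 + 1) = -ζ ^ (j₀.2 : ℕ) := by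
  unfold Qp
  rw [if_neg, if_pos rfl]
  generalize j₀.1 = i
  fin_cases i <;> decide

theorem Qp2 (ζ : ℂ) (j₀ : Jx) : Qp ζ j₀ (j₀.1 + 2) = 1 := by
  unfold Qp
  rw [if_neg, if_neg]
  · generalize j₀.1 = i
    fin_cases i <;> decide
  · generalize j₀.1 = i
    fin_cases i <;> decide

theorem add11 (i : Fin 3) : i + 1 + 1 = i + 2 := by fin_cases i <;> rfl
theorem add12 (i : Fin 3) : i + 1 + 2 = i := by fin_cases i <;> rfl
theorem add21 (i : Fin 3) : i + 2 + 1 = i := by fin_cases i <;> rfl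
theorem add22 (i : Fin 3) : i + 2 + 2 = i + 1 := by fin_cases i <;> rfl

theorem fin3_cases (i i₀ : Fin 3) : i = i₀ ∨ i = i₀ + 1 ∨ i = i₀ + 2 := by
  revert i i₀
  decide

theorem z5 (hζ : IsPrimitiveRoot ζ 5) (k : Fin 5) : (ζ ^ (k : ℕ)) ^ 5 = 1 := by
  rw [← pow_mul, mul_comm, pow_mul, hζ.pow_eq_one, one_pow]

theorem eval_FF (hζ : IsPrimitiveRoot ζ 5) (j₀ : Jx) : eval (Qp ζ j₀) FF = 0 := by
  have h5 := z5 hζ j₀.2
  have h : ∑ i, (Qp ζ j₀ i) ^ 5 = 0 := by
    have : ∀ i₀ : Fin 3, ∀ f : Fin 3 → ℂ, ∑ i, f i = f i₀ + f (i₀ + 1) + f (i₀ + 2) := by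
      intro i₀ f
      rw [Fin.sum_univ_three]
      fin_cases i₀
      · rfl
      · change f 0 + f 1 + f 2 = f 1 + f 2 + f 0
        ring
      · change f 0 + f 1 + f 2 = f 2 + f 0 + f 1
        ring
    rw [this j₀.1, Qp0, Qp1, Qp2]
    have e : (-ζ ^ (j₀.2 : ℕ)) ^ 5 = -(ζ ^ (j₀.2 : ℕ)) ^ 5 := by ring
    rw [e, h5]
    ring
  rw [← h]
  simp [FF]

theorem eval_elp_self (ζ : ℂ) (j₀ : Jx) : eval (Qp ζ j₀) (elp ζ j₀) = 0 := by
  rw [eval_elp, Qp1, Qp2]
  ring

theorem eval_elp_ne (hζ : IsPrimitiveRoot ζ 5) {j₀ j₁ : Jx} (hj : j₁ ≠ j₀) :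
    eval (Qp ζ j₀) (elp ζ j₁) ≠ 0 := by
  have hz : ζ ≠ 0 := hζ.ne_zero (by norm_num)
  rw [eval_elp]
  rcases fin3_cases j₁.1 j₀.1 with h | h | h
  · rw [h, Qp1, Qp2, mul_one]
    intro h0
    have : ζ ^ (j₁.2 : ℕ) = ζ ^ (j₀.2 : ℕ) := by linear_combination h0
    exact hj (Prod.ext h (zpow_inj hζ this))
  · rw [h, add11, add12, Qp2, Qp0, mul_zero, add_zero]
    exact one_ne_zero
  · rw [h, add21, add22, Qp0, Qp1, zero_add]
    exact mul_ne_zero (pow_ne_zero _ hz) (neg_ne_zero.2 (pow_ne_zero _ hz))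

theorem lam_eval_zero (hKer : StmtKer) (h : Cov ζ x) {j₀ j₁ : Jx} (hj : j₁ ≠ j₀) (s : Jx → ℂ)
    (j : Jx) (hs : (x j₁ / x j₀ * aeval x (der (Matrix.diagonal s) (EE ζ j))) ^ 5 ∈ AA x 5) :
    eval (Qp ζ j₀) (lam ζ s j) = 0 := by
  rw [aeval_lam h] at hs
  obtain ⟨T, -, hT⟩ := mem_AA.1 hs
  have h1 : aeval (pr x) (elp ζ j₁ * lam ζ s j ^ 5 - elp ζ j₀ * T) = 0 := by
    rw [map_sub, map_mul, map_mul, aeval_elp, aeval_elp, hT, mul_pow, div_pow, pow_five h,
      pow_five h, map_pow]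
    have := el_ne h j₀
    field_simp
    ring
  obtain ⟨H, hH⟩ := (hKer K ζ x h).1 _ h1
  have h2 := congrArg (eval (Qp ζ j₀)) hH
  rw [map_sub, map_mul, map_mul, map_mul, eval_FF h.prim, zero_mul, eval_elp_self, zero_mul,
    sub_zero, map_pow, mul_eq_zero] at h2
  rcases h2 with h2 | h2
  · exact absurd h2 (eval_elp_ne h.prim hj)
  · exact (pow_eq_zero_iff (by norm_num)).1 h2

theorem eval_lam (ζ : ℂ) (s : Jx → ℂ) (j : Jx) (v : Fin 3 → ℂ) :
    eval v (lam ζ s j) = (∑ k, s (j.1 + 1, k) - 5 * s j) * v (j.1 + 1) +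
      ζ ^ (j.2 : ℕ) * (∑ k, s (j.1 + 2, k) - 5 * s j) * v (j.1 + 2) := by
  unfold lam
  simp only [map_add, map_mul, eval_C, eval_X]

end

theorem pf_LinC (hKer : StmtKer) : StmtLinC := by
  intro K _ _ ζ x h j₀ j₁ hj s hs
  have hz : ζ ≠ 0 := h.prim.ne_zero (by norm_num)
  have hl := fun j => lam_eval_zero hKer h hj s j (hs j)
  simp only [eval_lam] at hl
  set S : ℂ := ∑ k, s (j₀.1 + 1, k) with hS
  have e1 : ∑ k, s (j₀.1 + 2, k) = S := by
    have := hl j₀
    rw [Qp1, Qp2] at this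
    have h2 : ζ ^ (j₀.2 : ℕ) * (∑ k, s (j₀.1 + 2, k) - S) = 0 := by linear_combination this
    rcases mul_eq_zero.1 h2 with h3 | h3
    · exact absurd h3 (pow_ne_zero _ hz)
    · linear_combination h3
  have e2 : ∀ j, j ≠ j₀ → s j = S / 5 := by
    intro j hj'
    have := hl j
    rcases fin3_cases j.1 j₀.1 with h1 | h1 | h1
    · rw [h1, Qp1, Qp2, e1, ← hS] at this
      have h2 : (S - 5 * s j) * (ζ ^ (j.2 : ℕ) - ζ ^ (j₀.2 : ℕ)) = 0 := by
        linear_combination this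
      rcases mul_eq_zero.1 h2 with h3 | h3
      · linear_combination -h3 / 5
      · exact absurd (Prod.ext h1 (zpow_inj h.prim (by linear_combination h3))) hj'
    · rw [h1, add11, add12, Qp2, Qp0, e1] at this
      linear_combination -this / 5
    · rw [h1, add21, add22, Qp0, Qp1, ← hS] at this
      have h2 : ζ ^ (j.2 : ℕ) * ζ ^ (j₀.2 : ℕ) * (S - 5 * s j) = 0 := by
        linear_combination -this
      rcases mul_eq_zero.1 h2 with h3 | h3
      · exact absurd h3 (mul_ne_zero (pow_ne_zero _ hz) (pow_ne_zero _ hz))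
      · linear_combination -h3 / 5
  refine ⟨s j₀ - S / 5, fun j => ?_⟩
  have e3 : der (Matrix.diagonal s) (EE ζ j) = C (S / 5) * (C 5 * EE ζ j) +
      C (s j₀ - S / 5) * X j₀ * pderiv j₀ (EE ζ j) := by
    have h1 : der (Matrix.diagonal fun _ => (1 : ℂ)) (EE ζ j) = C 5 * EE ζ j := by
      rw [der_EE]
      simp only [mul_one, Finset.sum_const, Finset.card_univ, Fintype.card_fin, nsmul_eq_mul,
        Nat.cast_ofNat]
      unfold EE el
      rw [algebraMap_eq, map_mul]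
      ring
    rw [← h1, der_diagonal, der_diagonal, Finset.mul_sum,
      ← Finset.add_sum_erase _ _ (Finset.mem_univ j₀),
      ← Finset.add_sum_erase _ _ (Finset.mem_univ j₀)]
    have h2 : ∑ i ∈ Finset.univ.erase j₀, C (s i) * X i * pderiv i (EE ζ j) =
        ∑ i ∈ Finset.univ.erase j₀, C (S / 5) * (C 1 * X i * pderiv i (EE ζ j)) := by
      refine Finset.sum_congr rfl fun i hi => ?_
      rw [e2 i (Finset.mem_erase.1 hi).1, map_one]
      ring
    rw [h2, map_sub, map_one]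
    ring
  rw [e3, der_single]
  simp only [map_add, map_mul, aeval_EE h, mul_zero, zero_add, aeval_X, aeval_C]
  have := x_ne h j₀
  field_simp

end Pool.Agent.Helper52.Rig
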